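import Pool.Agent.Helper22.TB.Goals

/-!
# Project TB (MP_74f661_nt): packet B1
-/

set_option autoImplicit false

open Finset Filter Topology
open scoped Classical
open Pool.Agent.Helper22.TB

namespace Pool.Agent.Helper46.TB

/-! ### Nonnegativity of `Ab` on cosine sums -/

lemma hasSum_cos (θ r : ℝ) (h0 : 0 ≤ r) (h1 : r < 1) :
    ∃ s : ℝ, HasSum (fun g : ℕ => (-1 : ℝ) ^ (g + 1) * Real.cos (θ * ((g + 1 : ℕ) : ℝ)) * r ^ (g + 1)) s
      ∧ 0 ≤ 1 + 2 * s := by
  set z : ℂ := ((-r : ℝ) : ℂ) * Complex.exp (θ * Complex.I) with hz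
  have hzn : ‖z‖ = r := by
    rw [hz, norm_mul, Complex.norm_exp_ofReal_mul_I, mul_one, Complex.norm_real,
      Real.norm_eq_abs, abs_neg, abs_of_nonneg h0]
  have hz1 : ‖z‖ < 1 := by rw [hzn]; exact h1
  have hg : HasSum (fun g : ℕ => z ^ g) (1 - z)⁻¹ := hasSum_geometric_of_norm_lt_one hz1
  have hg2 : HasSum (fun g : ℕ => z * z ^ g) (z * (1 - z)⁻¹) := hg.mul_left z
  have hre := Complex.hasSum_re hg2
  have hw : (1 - z) ≠ 0 := by
    intro h
    have : z = 1 := by linear_combination -h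
    rw [this] at hz1
    simp at hz1
  refine ⟨(z * (1 - z)⁻¹).re, ?_, ?_⟩
  · have he : (fun g : ℕ => (-1 : ℝ) ^ (g + 1) * Real.cos (θ * ((g + 1 : ℕ) : ℝ)) * r ^ (g + 1))
        = fun g : ℕ => (z * z ^ g).re := by
      funext g
      have h2 : z * z ^ g = (((-r) ^ (g + 1) : ℝ) : ℂ)
          * Complex.exp (((θ * ((g + 1 : ℕ) : ℝ) : ℝ) : ℂ) * Complex.I) := by
        rw [← pow_succ', hz, mul_pow, ← Complex.exp_nat_mul]
        push_cast
        congr 1
        congr 1
        ring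
      rw [h2, Complex.re_ofReal_mul, Complex.exp_ofReal_mul_I_re]
      have h3 : (-r) ^ (g + 1) = (-1 : ℝ) ^ (g + 1) * r ^ (g + 1) := by
        rw [← mul_pow]; congr 1; ring
      rw [h3]; ring
    rw [he]
    exact hre
  · have h4 : z * (1 - z)⁻¹ = (1 - z)⁻¹ - 1 := by
      field_simp
      ring
    have h5 : z.re * z.re + z.im * z.im ≤ 1 := by
      have h6 : Complex.normSq z ≤ 1 := by
        rw [Complex.normSq_eq_norm_sq, hzn]
        nlinarith
      rwa [Complex.normSq_apply] at h6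
    have h7 : 0 < Complex.normSq (1 - z) := Complex.normSq_pos.2 hw
    rw [h4, Complex.sub_re, Complex.inv_re, Complex.one_re]
    have h8 : Complex.normSq (1 - z) = (1 - z.re) * (1 - z.re) + z.im * z.im := by
      rw [Complex.normSq_apply]
      simp
    have h9 : (1 - z).re = 1 - z.re := by simp
    have h10 : 1 + 2 * ((1 - z).re / Complex.normSq (1 - z) - 1)
        = (2 * (1 - z.re) - Complex.normSq (1 - z)) / Complex.normSq (1 - z) := by
      rw [h9]
      field_simp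
      ring
    rw [h10]
    apply div_nonneg _ h7.le
    rw [h8]
    nlinarith

lemma ab_nonneg (q : ℕ) (f : ℕ → ℝ) (m : ℕ) (r : ℝ) (hf : PDU q f) (h0 : 0 ≤ r) (h1 : r < 1) :
    0 ≤ Ab r (fun k => f (m * k)) := by
  obtain ⟨ι, _, c, a, hc, -, hfe⟩ := hf
  set θ : ι → ℝ := fun i => 2 * Real.pi * a i * m / q with hθ
  have hfe2 : ∀ k : ℕ, f (m * k) = ∑ i, c i * Real.cos (θ i * (k : ℕ)) := by
    intro k
    rw [hfe]
    apply Finset.sum_congr rfl
    intro i _
    rw [hθ]
    simp only []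
    congr 2
    push_cast
    ring
  choose s hs hs0 using fun i => hasSum_cos (θ i) r h0 h1
  have hsum : HasSum (fun g : ℕ => (-1 : ℝ) ^ (g + 1) * f (m * (g + 1)) * r ^ (g + 1))
      (∑ i, c i * s i) := by
    have h2 := hasSum_sum (s := (Finset.univ : Finset ι)) (fun i _ => (hs i).mul_left (c i))
    have h2e : (fun g : ℕ => (-1 : ℝ) ^ (g + 1) * f (m * (g + 1)) * r ^ (g + 1))
        = fun g : ℕ => ∑ i, c i * ((-1 : ℝ) ^ (g + 1)
            * Real.cos (θ i * ((g + 1 : ℕ) : ℝ)) * r ^ (g + 1)) := by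
      funext g
      rw [hfe2, Finset.mul_sum, Finset.sum_mul]
      apply Finset.sum_congr rfl
      intro i _
      ring
    rw [h2e]
    exact h2
  unfold Pool.Agent.Helper22.TB.Ab
  simp only []
  rw [hsum.tsum_eq, hfe2 0]
  have h3 : ∑ i, c i * Real.cos (θ i * ((0 : ℕ) : ℝ)) + 2 * ∑ i, c i * s i
      = ∑ i, c i * (1 + 2 * s i) := by
    rw [Finset.mul_sum, ← Finset.sum_add_distrib]
    apply Finset.sum_congr rfl
    intro i _
    simp
    ring
  rw [h3]
  exact Finset.sum_nonneg (fun i _ => mul_nonneg (hc i) (hs0 i))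

/-! ### The bound for `CQ` -/

lemma loglog_le (L : ℝ) (hL : 0 < L) : Real.log L ≤ L / 2 := by
  have h1 : Real.log (L / 2) ≤ L / 2 - 1 := Real.log_le_sub_one_of_pos (by positivity)
  rw [Real.log_div hL.ne' (by norm_num)] at h1
  have h2 : Real.log 2 < 1 := by
    have := Real.log_two_lt_d9
    linarith
  linarith

lemma exp_seven_fifths : (4.05 : ℝ) ≤ Real.exp (7 / 5) := by
  have h1 : (Real.exp (7 / 5)) ^ 5 = (Real.exp 1) ^ 7 := by
    rw [← Real.exp_nat_mul, ← Real.exp_nat_mul]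
    norm_num
  have h2 : (2.7182818283 : ℝ) < Real.exp 1 := Real.exp_one_gt_d9
  have h3 : (2.7182818283 : ℝ) ^ 7 ≤ (Real.exp 1) ^ 7 := by
    apply pow_le_pow_left₀ (by norm_num) h2.le
  have h4 : (4.05 : ℝ) ^ 5 ≤ (Real.exp (7 / 5)) ^ 5 := by
    rw [h1]
    refine le_trans ?_ h3
    norm_num
  exact le_of_pow_le_pow_left₀ (by norm_num) (Real.exp_pos _).le h4

lemma exp_seven_fifths_lt : Real.exp (7 / 5) ≤ 8 := by
  have h1 : (Real.exp (7 / 5)) ^ 5 = (Real.exp 1) ^ 7 := by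
    rw [← Real.exp_nat_mul, ← Real.exp_nat_mul]
    norm_num
  have h2 : Real.exp 1 < 2.7182818286 := Real.exp_one_lt_d9
  have h3 : (Real.exp 1) ^ 7 ≤ (2.7182818286 : ℝ) ^ 7 := by
    apply pow_le_pow_left₀ (Real.exp_pos _).le h2.le
  have h4 : (Real.exp (7 / 5)) ^ 5 ≤ (8 : ℝ) ^ 5 := by
    rw [h1]
    refine le_trans h3 ?_
    norm_num
  exact le_of_pow_le_pow_left₀ (by norm_num) (by norm_num) h4

lemma cq_bound (Q x : ℕ) (hQ : 3 ≤ Q) (hx2 : x ≤ 2 * Q) (hsf : Squarefree x)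
    (hp : ∀ p, p.Prime → p ∣ x → yQ Q < p) :
    CQ x ≤ 8 * (Real.log Q) ^ (7 / 20 : ℝ) / x := by
  have hQr : (3 : ℝ) ≤ Q := by exact_mod_cast hQ
  have hL1 : 1 < Real.log Q := by
    rw [Real.lt_log_iff_exp_lt (by linarith)]
    have := Real.exp_one_lt_d9
    linarith
  set L := Real.log Q with hL
  have hLL : 0 < Real.log L := Real.log_pos hL1
  have hLL2 : Real.log L ≤ L / 2 := loglog_le L (by linarith)
  have hx0 : x ≠ 0 := hsf.ne_zero
  have hxpos : (0 : ℝ) < x := by exact_mod_cast Nat.pos_of_ne_zero hx0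
  -- `y` is large
  have hy8 : 8 ≤ 4 * L / Real.log L := by
    rw [le_div_iff₀ hLL]
    linarith
  have hlogy : Real.log (yQ Q) = 4 * L / Real.log L := by
    unfold yQ
    rw [Real.log_exp]
  have hy400 : (400 : ℝ) ≤ yQ Q := by
    have h1 : Real.exp 8 ≤ yQ Q := by
      unfold yQ
      exact Real.exp_le_exp.2 hy8
    have h2 : (400 : ℝ) ≤ Real.exp 8 := by
      have h3 : Real.exp 8 = (Real.exp 1) ^ 8 := by
        rw [← Real.exp_nat_mul]; norm_num
      rw [h3]
      have h4 : (2.7182818283 : ℝ) < Real.exp 1 := Real.exp_one_gt_d9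
      have h5 : (2.7182818283 : ℝ) ^ 8 ≤ (Real.exp 1) ^ 8 := by
        apply pow_le_pow_left₀ (by norm_num) h4.le
      refine le_trans ?_ h5
      norm_num
    linarith
  have hprime : ∀ p ∈ x.primeFactors, yQ Q < p ∧ (400 : ℝ) < p := by
    intro p hpm
    have h1 := hp p (Nat.prime_of_mem_primeFactors hpm) (Nat.dvd_of_mem_primeFactors hpm)
    exact ⟨h1, lt_of_le_of_lt hy400 h1⟩
  have hprod : ∏ p ∈ x.primeFactors, (p : ℝ) = x := by
    have h1 := Nat.prod_primeFactors_of_squarefree hsf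
    rw [← Nat.cast_prod, h1]
  -- number of prime factors
  set w : ℕ := x.primeFactors.card with hw
  have hcount : (w : ℝ) ≤ Real.log L / 4 + 1 := by
    have h1 : (w : ℝ) * (4 * L / Real.log L) ≤ Real.log x := by
      rw [← hprod, Real.log_prod (fun p hpm => by
        have := (hprime p hpm).2
        linarith), ← hlogy, hw, ← nsmul_eq_mul]
      apply Finset.card_nsmul_le_sum
      intro p hpm
      apply Real.log_le_log (by linarith)
      exact (hprime p hpm).1.le
    have h2 : Real.log x ≤ Real.log 2 + L := by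
      rw [hL, ← Real.log_mul (by norm_num) (by linarith)]
      apply Real.log_le_log hxpos
      exact_mod_cast hx2
    have h3 : Real.log 2 < 1 := by
      have := Real.log_two_lt_d9
      linarith
    have h4 : (w : ℝ) * (4 * L / Real.log L) ≤ 1 + L := by linarith
    have h5 : (w : ℝ) * (4 * L) ≤ (1 + L) * Real.log L := by
      have h6 : (w : ℝ) * (4 * L / Real.log L) * Real.log L ≤ (1 + L) * Real.log L :=
        mul_le_mul_of_nonneg_right h4 hLL.le
      have h7 : (w : ℝ) * (4 * L / Real.log L) * Real.log L = (w : ℝ) * (4 * L) := by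
        field_simp
      linarith
    have h8 : (w : ℝ) * (4 * L) ≤ (Real.log L / 4 + 1) * (4 * L) := by nlinarith
    exact le_of_mul_le_mul_right h8 (by linarith)
  -- the product
  have hfac : ∀ p ∈ x.primeFactors, 4 * (p : ℝ) / ((p : ℝ) - 2) ^ 2 ≤ Real.exp (7 / 5) * (p : ℝ)⁻¹ := by
    intro p hpm
    have h1 := (hprime p hpm).2
    have h2 : 0 < ((p : ℝ) - 2) ^ 2 := by
      have : (0 : ℝ) < (p : ℝ) - 2 := by linarith
      positivity
    have h3 := exp_seven_fifths
    have h4 : 4 * (p : ℝ) / ((p : ℝ) - 2) ^ 2 ≤ 4.05 * (p : ℝ)⁻¹ := by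
      rw [div_le_iff₀ h2, mul_assoc, ← div_eq_inv_mul, mul_div_assoc', le_div_iff₀ (by linarith)]
      nlinarith
    refine le_trans h4 ?_
    apply mul_le_mul_of_nonneg_right h3
    positivity
  have hCQ : CQ x ≤ (Real.exp (7 / 5)) ^ w * (x : ℝ)⁻¹ := by
    unfold CQ
    refine le_trans (Finset.prod_le_prod ?_ hfac) ?_
    · intro p hpm
      have h1 := (hprime p hpm).2
      positivity
    · rw [Finset.prod_mul_distrib, Finset.prod_const, Finset.prod_inv_distrib, hprod]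
  have hexp : (Real.exp (7 / 5)) ^ w ≤ 8 * L ^ (7 / 20 : ℝ) := by
    rw [← Real.exp_nat_mul]
    have h1 : (w : ℝ) * (7 / 5) ≤ Real.log L * (7 / 20) + 7 / 5 := by nlinarith
    have h2 : Real.exp ((w : ℝ) * (7 / 5)) ≤ Real.exp (Real.log L * (7 / 20) + 7 / 5) :=
      Real.exp_le_exp.2 h1
    rw [Real.exp_add, ← Real.rpow_def_of_pos (by linarith)] at h2
    have h3 := exp_seven_fifths_lt
    have h4 : 0 ≤ L ^ (7 / 20 : ℝ) := Real.rpow_nonneg (by linarith) _
    nlinarith
  refine le_trans hCQ ?_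
  rw [div_eq_mul_inv]
  exact mul_le_mul_of_nonneg_right hexp (by positivity)

lemma gq_nonneg (q : ℕ) : 0 ≤ gq q := by
  unfold gq
  apply Finset.prod_nonneg
  intro p hp
  have h1 : (2 : ℝ) ≤ p := by
    exact_mod_cast (Nat.prime_of_mem_primeFactors hp).two_le
  apply div_nonneg (by norm_num)
  linarith

theorem gB1 : G_B1 := by
  intro hSQ hDOM hCLS hRAP
  obtain ⟨-, hsq0, hpdu⟩ := hSQ
  obtain ⟨C, Q0, hC, hR⟩ := hRAP
  refine ⟨32 * C, max Q0 3, by positivity, ?_⟩
  intro Q hQ q r hq hq4 hqs hr0 hr1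
  have hQ0 : Q0 ≤ Q := le_trans (le_max_left _ _) hQ
  have hQ3 : 3 ≤ Q := le_trans (le_max_right _ _) hQ
  have hQpos : (0 : ℝ) < Q := by
    have : 0 < Q := by omega
    exact_mod_cast this
  have hQr : (3 : ℝ) ≤ Q := by exact_mod_cast hQ3
  have hL1 : 1 < Real.log Q := by
    rw [Real.lt_log_iff_exp_lt (by linarith)]
    have := Real.exp_one_lt_d9
    linarith
  have hq0 : q ≠ 0 := hq.1.ne_zero
  have hqpos : 0 < q := Nat.pos_of_ne_zero hq0
  have hqr : (0 : ℝ) < q := by exact_mod_cast hqpos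
  have hqodd : Odd q := by
    have h1 : Nat.Coprime q 2 := Nat.Coprime.coprime_dvd_right (by norm_num) hq.2
    exact Nat.coprime_two_right.mp h1
  set S := (Ioc (Q / q) (2 * Q / q)).filter
          (fun x : ℕ => SF6 x ∧ ∀ p, p.Prime → p ∣ x → yQ Q < p) with hS
  set B : ℝ := C * (Q / (q : ℝ) ^ 2) * (q / Nat.totient q) * (Real.log Q) ^ (-(1 / 2) : ℝ) with hB
  have hL0 : (0 : ℝ) < Real.log Q := by linarith
  have hB0 : 0 ≤ B := by
    rw [hB]
    positivity
  set n : ℕ := ⌊B⌋₊ with hn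
  have hnB : (n : ℝ) ≤ B := Nat.floor_le hB0
  set m : ℕ := 2 * Q / q with hm
  have hmem : ∀ x ∈ S, (Q / q < x ∧ x ≤ m) ∧ SF6 x ∧ ∀ p, p.Prime → p ∣ x → yQ Q < p := by
    intro x hx
    rw [hS, Finset.mem_filter, Finset.mem_Ioc] at hx
    exact hx
  have hmq : m * q ≤ 2 * Q := Nat.div_mul_le_self _ _
  have hxm : ∀ x ∈ S, 1 ≤ x ∧ x ≤ m ∧ m ≤ 2 * x := by
    intro x hx
    obtain ⟨⟨h1, h2⟩, -, -⟩ := hmem x hx
    refine ⟨Nat.lt_of_le_of_lt (Nat.zero_le _) h1, h2, ?_⟩
    have h3 : Q < q * x := by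
      have h4 : Q / q < x := h1
      have := (Nat.div_lt_iff_lt_mul hqpos).1 h4
      rwa [mul_comm] at this
    have h5 : 2 * Q / q < 2 * x + 1 := by
      rw [Nat.div_lt_iff_lt_mul hqpos]
      nlinarith
    omega
  have hcls : ∀ c < q, (S.filter (fun x => x % q = c)).card ≤ n := by
    intro c _
    apply Nat.le_floor
    refine le_trans ?_ (hR Q hQ0 q hq hq4 c)
    have h1 : (S.filter (fun x => x % q = c)) ⊆ ((Ioc (Q / q) (2 * Q / q)).filter
          (fun x : ℕ => x % q = c ∧ ∀ p, p.Prime → p ∣ x → yQ Q < p)) := by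
      intro x hx
      rw [Finset.mem_filter] at hx
      obtain ⟨⟨h1, h2⟩, h3, h4⟩ := hmem x hx.1
      rw [Finset.mem_filter, Finset.mem_Ioc]
      exact ⟨⟨h1, h2⟩, hx.2, h4⟩
    exact_mod_cast Finset.card_le_card h1
  have hclsum := hCLS q (sq q) S m n r hqodd (hpdu q hq) hr0 hr1 hxm hcls
  set M : ℝ := 8 * (Real.log Q) ^ (7 / 20 : ℝ) * (q / Q) with hM
  have hM0 : 0 ≤ M := by
    rw [hM]
    positivity
  have hterm : ∀ x ∈ S, Ab r (sq (x * q)) ≤ M * Ab (r ^ x) (fun k => sq q (x * k)) := by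
    intro x hx
    obtain ⟨⟨h1, h2⟩, h3, h4⟩ := hmem x hx
    have hx1 : 1 ≤ x := (hxm x hx).1
    have hcop : Nat.Coprime x q := by
      apply Nat.Coprime.symm
      rw [Nat.coprime_iff_gcd_eq_one]
      by_contra hne
      obtain ⟨p, hpp, hpd⟩ := Nat.exists_prime_and_dvd hne
      have h5 : p ∣ q := dvd_trans hpd (Nat.gcd_dvd_left _ _)
      have h6 : p ∣ x := dvd_trans hpd (Nat.gcd_dvd_right _ _)
      have h7 := hqs p hpp h5
      have h8 := h4 p hpp h6
      linarith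
    have hsf : SF6 (x * q) := by
      refine ⟨?_, ?_⟩
      · rw [Nat.squarefree_mul hcop]
        exact ⟨h3.1, hq.1⟩
      · exact Nat.Coprime.mul_left h3.2 hq.2
    have h5 := hDOM x q r hsf hcop hr0 hr1
    have h6 : 0 ≤ Ab (r ^ x) (fun k => sq q (x * k)) :=
      ab_nonneg q (sq q) x (r ^ x) (hpdu q hq) (by positivity) (pow_lt_one₀ hr0 hr1 (by omega))
    have hx2Q : x ≤ 2 * Q := le_trans h2 (le_trans (Nat.le_mul_of_pos_right _ hqpos) hmq)
    have h7 : CQ x ≤ M := by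
      refine le_trans (cq_bound Q x hQ3 hx2Q h3.1 h4) ?_
      have hxr : (0 : ℝ) < x := by exact_mod_cast hx1
      have h8 : (Q : ℝ) ≤ q * x := by
        have h9 : Q < x * q := (Nat.div_lt_iff_lt_mul hqpos).1 h1
        have : Q ≤ q * x := by rw [mul_comm]; omega
        exact_mod_cast this
      rw [hM, mul_div_assoc]
      have h10 : (1 : ℝ) / x ≤ q / Q := by
        rw [div_le_div_iff₀ hxr hQpos]
        linarith
      have h11 : 0 ≤ 8 * (Real.log Q) ^ (7 / 20 : ℝ) := by positivity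
      calc 8 * ((Real.log Q) ^ (7 / 20 : ℝ) / x)
          = 8 * (Real.log Q) ^ (7 / 20 : ℝ) * (1 / x) := by ring
        _ ≤ 8 * (Real.log Q) ^ (7 / 20 : ℝ) * (q / Q) := mul_le_mul_of_nonneg_left h10 h11
    exact le_trans h5 (mul_le_mul_of_nonneg_right h7 h6)
  have hmin : min 1 ((m : ℝ) * q * (1 - r)) ≤ min 1 (2 * Q * (1 - r)) := by
    apply min_le_min le_rfl
    apply mul_le_mul_of_nonneg_right _ (by linarith)
    exact_mod_cast hmq
  have hmin0 : 0 ≤ min 1 ((m : ℝ) * q * (1 - r)) := by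
    apply le_min zero_le_one
    have : 0 ≤ 1 - r := by linarith
    positivity
  have hg0 : 0 ≤ gq q := gq_nonneg q
  calc ∑ x ∈ S, Ab r (sq (x * q))
      ≤ ∑ x ∈ S, M * Ab (r ^ x) (fun k => sq q (x * k)) := Finset.sum_le_sum hterm
    _ = M * ∑ x ∈ S, Ab (r ^ x) (fun k => sq q (x * k)) := by rw [Finset.mul_sum]
    _ ≤ M * (4 * n * sq q 0 * q * min 1 (m * q * (1 - r))) :=
        mul_le_mul_of_nonneg_left hclsum hM0
    _ ≤ M * (4 * B * gq q * q * min 1 (2 * Q * (1 - r))) := by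
        apply mul_le_mul_of_nonneg_left _ hM0
        rw [hsq0]
        have h1 : 4 * (n : ℝ) * gq q * q ≤ 4 * B * gq q * q := by
          apply mul_le_mul_of_nonneg_right _ hqr.le
          apply mul_le_mul_of_nonneg_right _ hg0
          linarith
        have h2 : 0 ≤ 4 * B * gq q * q := by positivity
        exact mul_le_mul h1 hmin hmin0 h2
    _ = 32 * C * (Real.log Q) ^ (-(3 / 20) : ℝ) * (gq q * (q / Nat.totient q)) *
          min 1 (2 * Q * (1 - r)) := by
        rw [hM, hB]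
        have h3 : (Real.log Q) ^ (-(3 / 20) : ℝ)
            = (Real.log Q) ^ (7 / 20 : ℝ) * (Real.log Q) ^ (-(1 / 2) : ℝ) := by
          rw [← Real.rpow_add hL0]
          norm_num
        rw [h3]
        have h4 : (Nat.totient q : ℝ) ≠ 0 := by
          have := Nat.totient_pos.2 hqpos
          positivity
        field_simp
        ring

end Pool.Agent.Helper46.TB
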